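import Pool.Agent.Helper69_SER.Stmts

/-!
# GQ (squad SER, MP_bd34ba_al)
-/

set_option autoImplicit false

namespace SER.H65

open SER

theorem sq_of_surj {R : Type} [Ring R] {X : Type} [AddCommGroup X] [Module R X]
    {Y : Type} [AddCommGroup Y] [Module R Y] (φ : Y →ₗ[R] X) (h : Function.Surjective φ) :
    Sq R X Y := by
  refine ⟨⊤, φ ∘ₗ (⊤ : Submodule R Y).subtype, fun x => ?_⟩
  obtain ⟨y, rfl⟩ := h x
  exact ⟨⟨y, trivial⟩, rfl⟩

theorem chain_quot {R : Type} [Ring R] {X : Type} [AddCommGroup X] [Module R X]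
    (h : Chain R X) (K : Submodule R X) : Chain R (X ⧸ K) := by
  intro A B
  have hs : Function.Surjective K.mkQ := K.mkQ_surjective
  rcases h (A.comap K.mkQ) (B.comap K.mkQ) with h | h
  · left
    intro a ha
    obtain ⟨x, rfl⟩ := hs a
    exact h ha
  · right
    intro a ha
    obtain ⟨x, rfl⟩ := hs a
    exact h ha

/-- GQ -/
theorem gq (hKey : KeyStmt) : GQStmt := by
  intro R _ N _ _ hN ι U hU L V _ _ hV α β hinj S hS hQ
  have hns : ¬ Function.Surjective (β ∘ₗ α) := fun hs => hN V hV α β ⟨hinj, hs⟩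
  obtain ⟨t, ht⟩ : ∃ t, t ∉ LinearMap.range (β ∘ₗ α) := by
    by_contra h
    push Not at h
    exact hns fun y => h y
  refine hKey R N hN ι U hU L V hV β (α t) S hS ?_
  set f : V →ₗ[R] V := β ∘ₗ α with hf
  set K : Submodule R V := Submodule.span R {β (α t)} with hK
  have hft : β (α t) = f t := rfl
  -- range f is contained in the span of t
  have h1 : LinearMap.range f ≤ Submodule.span R {t} := by
    rcases hV.2 (LinearMap.range f) (Submodule.span R {t}) with h | h
    · exact h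
    · exact absurd (h (Submodule.mem_span_singleton_self t)) ht
  have h2 : ∀ v, f (f v) ∈ K := by
    intro v
    obtain ⟨r, hr⟩ := Submodule.mem_span_singleton.mp (h1 ⟨v, rfl⟩)
    rw [← hr, map_smul, hK, hft]
    exact Submodule.smul_mem _ _ (Submodule.mem_span_singleton_self _)
  have h3 : K ≤ LinearMap.range f := by
    rw [hK, Submodule.span_singleton_le_iff_mem]
    exact ⟨t, rfl⟩
  set A : Submodule R (V ⧸ K) := Submodule.map K.mkQ (LinearMap.range f) with hA
  refine hS.ext (ModuleCat.of R (V ⧸ K)) A (chain_quot hV.2 K) ?_ ?_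
  · refine hS.sq (ModuleCat.of R A) (ModuleCat.of R (V ⧸ LinearMap.range f)) hQ ?_
    have hmem : ∀ v, (K.mkQ ∘ₗ f) v ∈ A := fun v => ⟨f v, ⟨v, rfl⟩, rfl⟩
    refine sq_of_surj (R := R) (X := A) (Y := V ⧸ LinearMap.range f)
      (Submodule.liftQ (LinearMap.range f) (LinearMap.codRestrict A (K.mkQ ∘ₗ f) hmem) ?_) ?_
    · rintro _ ⟨v, rfl⟩
      rw [LinearMap.mem_ker]
      apply Subtype.ext
      show K.mkQ (f (f v)) = 0
      rw [← LinearMap.mem_ker, Submodule.ker_mkQ]
      exact h2 v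
    · rintro ⟨_, _, ⟨v, rfl⟩, rfl⟩
      exact ⟨(LinearMap.range f).mkQ v, rfl⟩
  · refine hS.sq (ModuleCat.of R ((V ⧸ K) ⧸ A)) (ModuleCat.of R (V ⧸ LinearMap.range f)) hQ ?_
    refine sq_of_surj (R := R) (X := (V ⧸ K) ⧸ A) (Y := V ⧸ LinearMap.range f)
      (Submodule.liftQ (LinearMap.range f) (A.mkQ ∘ₗ K.mkQ) ?_) ?_
    · intro v hv
      rw [LinearMap.mem_ker]
      show A.mkQ (K.mkQ v) = 0
      rw [← LinearMap.mem_ker, Submodule.ker_mkQ]
      exact ⟨v, hv, rfl⟩
    · intro x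
      obtain ⟨y, rfl⟩ := A.mkQ_surjective x
      obtain ⟨v, rfl⟩ := K.mkQ_surjective y
      exact ⟨(LinearMap.range f).mkQ v, rfl⟩

end SER.H65
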