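import Pool.Agent.Helper69_SER.Stmts

/-!
# PP (squad SER, MP_bd34ba_al)
-/

set_option autoImplicit false

namespace SER.H65

open SER

theorem not_inj_sub {R : Type} [Ring R] {X : Type} [AddCommGroup X] [Module R X]
    {Y : Type} [AddCommGroup Y] [Module R Y] (hX : Chain R X) (f g : X →ₗ[R] Y)
    (hf : ¬ Function.Injective f) (hg : ¬ Function.Injective g) :
    ¬ Function.Injective (f - g) := by
  rw [← LinearMap.ker_eq_bot] at hf hg ⊢
  intro h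
  have key : ∀ x, f x = 0 → g x = 0 → x = 0 := by
    intro x h1 h2
    have : x ∈ LinearMap.ker (f - g) := by
      rw [LinearMap.mem_ker, LinearMap.sub_apply, h1, h2, sub_zero]
    rw [h] at this
    exact this
  rcases hX (LinearMap.ker f) (LinearMap.ker g) with h1 | h1
  · exact hf ((Submodule.eq_bot_iff _).mpr fun x hx => key x hx (h1 hx))
  · exact hg ((Submodule.eq_bot_iff _).mpr fun x hx => key x (h1 hx) hx)

theorem not_inj_comp {R : Type} [Ring R] {X : Type} [AddCommGroup X] [Module R X]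
    {Y : Type} [AddCommGroup Y] [Module R Y] {Z : Type} [AddCommGroup Z] [Module R Z]
    (hX : Nontrivial X) (hY : Chain R Y) (g : X →ₗ[R] Y) (h : Y →ₗ[R] Z)
    (hg : Function.Injective g) (hh : ¬ Function.Injective h) :
    ¬ Function.Injective (h ∘ₗ g) := by
  intro hi
  rcases hY (LinearMap.range g) (LinearMap.ker h) with h1 | h1
  · obtain ⟨x, hx⟩ := exists_ne (0 : X)
    apply hx
    apply hi
    rw [map_zero]
    exact h1 ⟨x, rfl⟩
  · apply hh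
    rw [← LinearMap.ker_eq_bot, Submodule.eq_bot_iff]
    intro y hy
    obtain ⟨x, rfl⟩ := h1 hy
    have : x = 0 := by
      apply hi
      rw [map_zero]
      exact hy
    rw [this, map_zero]

/-- the correction step -/
theorem step {R : Type} [Ring R] {N : Type} [AddCommGroup N] [Module R N] {ι : Type}
    (U : ι → ModuleCat.{0} R) (hU : ∀ i, Uni R (U i)) (b : ∀ i, N →ₗ[R] U i)
    (k : ι) (T : Finset ι) {B : Type} [AddCommGroup B] [Module R B] (s : B →ₗ[R] N)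
    (i₁ i₂ : ι) (a₁ : U i₁ →ₗ[R] B) (a₂ : U i₂ →ₗ[R] B) (β : B →ₗ[R] U i₁)
    (h1 : Function.Injective (β ∘ₗ a₁)) (h2 : β ∘ₗ a₂ = 0)
    (n1 : ∀ l ∈ T, ¬ Function.Injective (b l ∘ₗ s ∘ₗ a₁))
    (n2 : ∀ l ∈ T, ¬ Function.Injective (b l ∘ₗ s ∘ₗ a₂))
    (j1 : Function.Injective (b k ∘ₗ s ∘ₗ a₁)) (j2 : Function.Injective (b k ∘ₗ s ∘ₗ a₂))
    (hr : LinearMap.range (b k ∘ₗ s ∘ₗ a₁) ≤ LinearMap.range (b k ∘ₗ s ∘ₗ a₂)) :
    ∃ a : U i₁ →ₗ[R] B, Function.Injective (β ∘ₗ a) ∧ b k ∘ₗ s ∘ₗ a = 0 ∧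
      ∀ l ∈ T, ¬ Function.Injective (b l ∘ₗ s ∘ₗ a) := by
  let e := LinearEquiv.ofInjective (b k ∘ₗ s ∘ₗ a₂) j2
  let c : U i₁ →ₗ[R] LinearMap.range (b k ∘ₗ s ∘ₗ a₂) :=
    LinearMap.codRestrict _ (b k ∘ₗ s ∘ₗ a₁) fun x => hr ⟨x, rfl⟩
  let g : U i₁ →ₗ[R] U i₂ := e.symm.toLinearMap ∘ₗ c
  have hg : ∀ x, b k (s (a₂ (g x))) = b k (s (a₁ x)) := by
    intro x
    have : e (g x) = c x := e.apply_symm_apply (c x)
    exact congrArg Subtype.val this
  have hginj : Function.Injective g := by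
    intro x y hxy
    apply j1
    show b k (s (a₁ x)) = b k (s (a₁ y))
    rw [← hg x, ← hg y, hxy]
  refine ⟨a₁ - a₂ ∘ₗ g, ?_, ?_, ?_⟩
  · have : β ∘ₗ (a₁ - a₂ ∘ₗ g) = β ∘ₗ a₁ := by
      ext x
      have h3 : β (a₂ (g x)) = 0 := LinearMap.congr_fun h2 (g x)
      simp [h3]
    rw [this]
    exact h1
  · ext x
    have := hg x
    simp [this]
  · intro l hl
    have : b l ∘ₗ s ∘ₗ (a₁ - a₂ ∘ₗ g) = b l ∘ₗ s ∘ₗ a₁ - (b l ∘ₗ s ∘ₗ a₂) ∘ₗ g := by
      ext x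
      simp
    rw [this]
    exact not_inj_sub (hU i₁).2 _ _ (n1 l hl)
      (not_inj_comp (hU i₁).1 (hU i₂).2 g _ hginj (n2 l hl))

/-- PP -/
theorem pp : PPStmt := by
  classical
  intro R _ N _ _ hSD ι U hU b O hO T
  induction T using Finset.induction_on with
  | empty =>
    intro B _ _ hB s t hst
    obtain ⟨i, hi, α, β, h⟩ := hO B hB s t hst
    exact ⟨i, hi, α, β, h, by simp⟩
  | insert k T hk ih =>
    intro B _ _ hB s t hst
    obtain ⟨B₁, B₂, hc, hn1, hn2⟩ := hSD B hB s t hst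
    have hts : ∀ x, t (s x) = x := fun x => LinearMap.congr_fun hst x
    obtain ⟨p₁, p11, p12⟩ : ∃ p : B →ₗ[R] B₁, (∀ x : B₁, p x = x) ∧ ∀ x : B₂, p x = 0 :=
      ⟨Submodule.projectionOnto B₁ B₂ hc,
        fun x => Submodule.projectionOnto_apply_left hc x,
        fun x => Submodule.projectionOnto_apply_right hc x⟩
    obtain ⟨p₂, p22, p21⟩ : ∃ p : B →ₗ[R] B₂, (∀ x : B₂, p x = x) ∧ ∀ x : B₁, p x = 0 :=
      ⟨Submodule.projectionOnto B₂ B₁ hc.symm,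
        fun x => Submodule.projectionOnto_apply_left hc.symm x,
        fun x => Submodule.projectionOnto_apply_right hc.symm x⟩
    have nt1 : Nontrivial B₁ := Submodule.nontrivial_iff_ne_bot.mpr hn1
    have nt2 : Nontrivial B₂ := Submodule.nontrivial_iff_ne_bot.mpr hn2
    obtain ⟨i₁, hi₁, α₁, β₁, e1, n1⟩ := ih B₁ nt1 (s ∘ₗ B₁.subtype) (p₁ ∘ₗ t) (by
      ext x
      simp [hts, p11])
    obtain ⟨i₂, hi₂, α₂, β₂, e2, n2⟩ := ih B₂ nt2 (s ∘ₗ B₂.subtype) (p₂ ∘ₗ t) (by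
      ext x
      simp [hts, p22])
    have e1' : Function.Injective ((β₁ ∘ₗ p₁) ∘ₗ (B₁.subtype ∘ₗ α₁)) := by
      have : (β₁ ∘ₗ p₁) ∘ₗ (B₁.subtype ∘ₗ α₁) = β₁ ∘ₗ α₁ := by
        ext x
        simp [p11]
      rw [this]
      exact e1
    have e2' : Function.Injective ((β₂ ∘ₗ p₂) ∘ₗ (B₂.subtype ∘ₗ α₂)) := by
      have : (β₂ ∘ₗ p₂) ∘ₗ (B₂.subtype ∘ₗ α₂) = β₂ ∘ₗ α₂ := by
        ext x
        simp [p22]
      rw [this]
      exact e2
    by_cases j1 : Function.Injective (b k ∘ₗ s ∘ₗ (B₁.subtype ∘ₗ α₁))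
    · by_cases j2 : Function.Injective (b k ∘ₗ s ∘ₗ (B₂.subtype ∘ₗ α₂))
      · rcases (hU k).2 (LinearMap.range (b k ∘ₗ s ∘ₗ (B₁.subtype ∘ₗ α₁)))
          (LinearMap.range (b k ∘ₗ s ∘ₗ (B₂.subtype ∘ₗ α₂))) with hr | hr
        · obtain ⟨a, h1, h2, h3⟩ := step U hU b k T s i₁ i₂ (B₁.subtype ∘ₗ α₁)
            (B₂.subtype ∘ₗ α₂) (β₁ ∘ₗ p₁) e1' (by ext x; simp [p12]) n1 n2 j1 j2 hr
          refine ⟨i₁, hi₁, a, β₁ ∘ₗ p₁, h1, ?_⟩
          intro l hl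
          rw [Finset.mem_insert] at hl
          rcases hl with rfl | hl
          · rw [h2]
            intro h
            obtain ⟨x, hx⟩ := (hU i₁).1.exists_pair_ne
            obtain ⟨y, hxy⟩ := hx
            exact hxy (h rfl)
          · exact h3 l hl
        · obtain ⟨a, h1, h2, h3⟩ := step U hU b k T s i₂ i₁ (B₂.subtype ∘ₗ α₂)
            (B₁.subtype ∘ₗ α₁) (β₂ ∘ₗ p₂) e2' (by ext x; simp [p21]) n2 n1 j2 j1 hr
          refine ⟨i₂, hi₂, a, β₂ ∘ₗ p₂, h1, ?_⟩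
          intro l hl
          rw [Finset.mem_insert] at hl
          rcases hl with rfl | hl
          · rw [h2]
            intro h
            obtain ⟨x, hx⟩ := (hU i₂).1.exists_pair_ne
            obtain ⟨y, hxy⟩ := hx
            exact hxy (h rfl)
          · exact h3 l hl
      · refine ⟨i₂, hi₂, B₂.subtype ∘ₗ α₂, β₂ ∘ₗ p₂, e2', ?_⟩
        intro l hl
        rw [Finset.mem_insert] at hl
        rcases hl with rfl | hl
        · exact j2
        · exact n2 l hl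
    · refine ⟨i₁, hi₁, B₁.subtype ∘ₗ α₁, β₁ ∘ₗ p₁, e1', ?_⟩
      intro l hl
      rw [Finset.mem_insert] at hl
      rcases hl with rfl | hl
      · exact j1
      · exact n1 l hl

end SER.H65
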